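import Pool.Agent.H98.AMFinalC

/-!
# MP_885423_lc: inequalities and binary variables of programs for approximate distances

Model (`Milp`). The data are the weights `W` of the ordered pairs of the `n` vertices of a directed
graph, the unknown `x` is an element of a real vector space, the constraints are affine jointly in
`W` and `x`: any number of linear equations, `r` linear inequalities, `q` binary variables. The
output is an affine function of `(W, x)`. The program is correct up to the factor `ρ` on `W` if every
feasible `x` has outputs `≤ ρ * dist W u v` and some feasible `x` has outputs `≥ dist W u v` (for all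
pairs simultaneously), so that the distances are found up to the factor `ρ` by maximising the output.
For example `D u v ≤ W u v`, `D u v ≤ D u w + D w v` is a correct linear program for `ρ = 1` with
`O(n ^ 3)` inequalities.

Theorem. Let `ρ ≥ 1`, `L ≥ 10 ρ`. If the program is correct up to the factor `ρ` for all directed
graphs with all weights in `[1, L]`, then
`n ^ 4 ≤ 10 ^ 16 ρ ^ 2 (n + ρ ^ 2 exp (8 √(log n)) q) (r + n ^ 2 + 1)`.
So `n ^ (3 - o(1))` inequalities are necessary even for approximations up to a factor `n ^ o(1)`, for
graphs with weights in `[1, n ^ o(1)]`, and with `n ^ (1 + o(1))` binary variables; and with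
`n ^ (1 + δ)` binary variables, `n ^ (3 - δ - o(1))` inequalities are necessary.

Proof. Let `S` be a set of integers in `[0, ν)` without progressions of length 3. Take blocks `A x`
(`x < ν`), `C y` (`y < 2 ν`) and `B z` (`z < 3 ν`) of `k` vertices each, and for every `x` and every
`a ∈ S` a cut of `A x ∪ C (x + a) ∪ B (x + 2 a)`; all these cuts are independent, so that there are
`3 ν |S| k` bits. Edges from `A x` to `C (x + a)`, from `C (x + a)` to `B (x + 2 a)` and from `A x` to
`B (x + 2 a)` have weight `1` if the cut of `(x, a)` does not separate their ends; all other edges
have weight `L`. As `S` has no progressions, the distance of a vertex in `A x` and a vertex in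
`B (x + 2 a)` is the weight of the edge (Ruzsa and Szemeredi). For each of the `ν |S| k ^ 3` critical
triples `t = (u, w, v) ∈ A x × C (x + a) × B (x + 2 a)` the function `ρ (W u w + W w v) - D u v` is
nonnegative on the set of the feasible points, which is a union of `2 ^ q` polyhedra.

Take the polyhedron which belongs to the largest set of bit vectors, of size at least `2 ^ (N - q)`,
`N = 3 ν |S| k`. By fixing at most `105 ρ ^ 2 q` bits (density restoration, `dense`) we get a set `𝒮`
of bit vectors in which every pattern on `j` other bits has density at most `θ ^ j`,
`θ = 1 / 2 + 1 / (300 ρ ^ 2)`. By the lemma of Farkas the values of the functions at these points are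
a sum of `r + 2 n ^ 2 + 1` nonnegative matrices of rank one. Give the pair `(t, s)` the weight `1` if
`s` separates the middle vertex from the two others, and the weight `- c` otherwise,
`c = 1 + 2 / (5 ρ)`. The inner product of the weights with the values is at least
`|𝒮| L / 8` for every free triple (`core0d`), and the inner product of the weights with a nonnegative
matrix of rank one with entries at most `2 ρ L` is `O(ρ ^ 2 L |𝒮|)`. The main point is the following
lemma (`combd`). If `S ⊆ 𝒮` and `𝒯` is a set of free triples such that for every triple in `𝒯` at
least `(1 / 2 + γ) |S|` of the vectors in `S` separate its middle vertex from the two others, then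
`|𝒯| |S| ≤ 20000 |𝒮| / γ ^ 2`. It is proved by taking a maximal family of nearly disjoint triples in
`𝒯` (exponential moments) and by a second moment argument for the triples which share a vertex; the
density of `𝒮` loses only a factor `(2 θ) ^ j` for events which depend on `j` bits. Finally `ν` is
chosen such that `ν n` is about `ρ ^ 2 q`, up to a factor `exp (O(√(log n)))` (Behrend), and
`6 ν k ≤ n`.
-/

set_option autoImplicit false

namespace Pool.Agent.Results.MP_885423_lc.MixedIntegerApprox

open Pool.Agent.H98.AL

theorem result (n r q : ℕ) (ρ L : ℝ) (hρ : 1 ≤ ρ) (hL : 10 * ρ ≤ L) (P : Milp n r q)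
    (h : ∀ W : Fin n → Fin n → ℝ, (∀ u, W u u = 0) →
      (∀ u v, u ≠ v → 1 ≤ W u v ∧ W u v ≤ L) → P.Correct ρ W) :
    (n : ℝ) ^ 4 ≤ 10 ^ 16 * ρ ^ 2 *
      ((n + ρ ^ 2 * Real.exp (8 * √(Real.log n)) * q) * (r + n ^ 2 + 1)) :=
  Pool.Agent.H98.AM.milp_dir_tradeoff hρ hL P h

end Pool.Agent.Results.MP_885423_lc.MixedIntegerApprox
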